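import Pool.Agent.H629.CG.Stm

/-!
# All moments on the whole interval
-/

set_option autoImplicit false

namespace Pool.Agent.H404.CG.WHL

open MeasureTheory ProbabilityTheory Filter Topology Set
open scoped ENNReal NNReal
open Pool.Agent.H629.CG

theorem gap_eq (c : Bool) {s t : ℝ} (h : |s - t| ≤ 1 / 2) : gap c s t = |s - t| := by
  unfold gap
  split_ifs
  · exact min_eq_left (by linarith)
  · rfl

theorem hf_abs {s t : ℝ} (hs : s ∈ Hf) (ht : t ∈ Hf) : |s - t| ≤ 1 / 2 := by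
  unfold Hf at hs ht
  rw [abs_le]
  constructor <;> linarith [hs.1, hs.2, ht.1, ht.2]

section lnf

variable {μ : ℝ} {r : ℝ → ℝ} {c : Bool} {ε : ℝ} {Ω : Type} [MeasurableSpace Ω] {P : Measure Ω}
  {X : ℝ → Ω → ℝ}

theorem lnf1 (h : LNF (Ico 0 1) P X (kk μ r c ε)) :
    LNF Hf P X (fun s t => μ * rho r ε |s - t|) := by
  have hsub : ∀ {t : ℝ}, t ∈ Hf → t ∈ Ico (0 : ℝ) 1 := by
    intro t ht
    unfold Hf at ht
    exact ⟨ht.1, by linarith [ht.2]⟩
  refine ⟨h.meas, fun n t ht => h.gauss n t fun i => hsub (ht i), fun t ht => ?_,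
    fun s hs t ht => ?_⟩
  · rw [h.mean t (hsub ht)]
    unfold kk
    rw [gap_eq c (hf_abs ht ht)]
  · rw [h.cov s (hsub hs) t (hsub ht)]
    unfold kk
    rw [gap_eq c (hf_abs hs ht)]

theorem lnf2 (h : LNF (Ico 0 1) P X (kk μ r c ε)) :
    LNF Hf P (fun u => X (u + 1 / 2)) (fun s t => μ * rho r ε |s - t|) := by
  have hsub : ∀ {t : ℝ}, t ∈ Hf → t + 1 / 2 ∈ Ico (0 : ℝ) 1 := by
    intro t ht
    unfold Hf at ht
    exact ⟨by linarith [ht.1], by linarith [ht.2]⟩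
  refine ⟨?_, fun n t ht => h.gauss n (fun i => t i + 1 / 2) fun i => hsub (ht i),
    fun t ht => ?_, fun s hs t ht => ?_⟩
  · exact h.meas.comp ((measurable_fst.add_const _).prodMk measurable_snd)
  · rw [h.mean _ (hsub ht)]
    unfold kk
    have e : t + 1 / 2 - (t + 1 / 2) = t - t := by ring
    rw [gap_eq c (by rw [e]; exact hf_abs ht ht), e]
  · rw [h.cov _ (hsub hs) _ (hsub ht)]
    unfold kk
    have e : s + 1 / 2 - (t + 1 / 2) = s - t := by ring
    rw [gap_eq c (by rw [e]; exact hf_abs hs ht), e]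

omit [MeasurableSpace Ω] in
theorem mas_split (X : ℝ → Ω → ℝ) (ω : Ω) :
    mas (Ico 0 1) X ω = mas Hf X ω + mas Hf (fun u => X (u + 1 / 2)) ω := by
  have h1 : Ico (0 : ℝ) 1 = Hf ∪ Ico (1 / 2) 1 := by
    unfold Hf
    rw [Ico_union_Ico_eq_Ico (by norm_num) (by norm_num)]
  have hdis : Disjoint Hf (Ico (1 / 2 : ℝ) 1) := by
    unfold Hf
    rw [Set.disjoint_left]
    rintro x ⟨_, hx⟩ ⟨hx', _⟩
    linarith
  unfold mas
  rw [h1, lintegral_union measurableSet_Ico hdis]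
  congr 1
  have h2 := (measurePreserving_add_right (volume : Measure ℝ) (1 / 2)).setLIntegral_comp_preimage_emb
    (measurableEmbedding_addRight (1 / 2)) (fun u => ENNReal.ofReal (Real.exp (X u ω)))
    (Ico (1 / 2) 1)
  rw [← h2]
  have h3 : (fun x : ℝ => x + 1 / 2) ⁻¹' Ico (1 / 2) 1 = Hf := by
    ext x
    unfold Hf
    simp only [mem_preimage, mem_Ico]
    constructor
    · rintro ⟨h4, h5⟩
      exact ⟨by linarith, by linarith⟩
    · rintro ⟨h4, h5⟩
      exact ⟨by linarith, by linarith⟩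
  rw [h3]

theorem mas_meas (A : Set ℝ) {X : ℝ → Ω → ℝ} (hX : Measurable (Function.uncurry X)) :
    Measurable (mas A X) := by
  unfold mas
  have h1 : Measurable (Function.uncurry fun (u : ℝ) (ω : Ω) =>
      ENNReal.ofReal (Real.exp (X u ω))) :=
    ENNReal.measurable_ofReal.comp (Real.measurable_exp.comp hX)
  exact h1.lintegral_prod_left'

end lnf

theorem add_rpow_le (a b : ℝ≥0∞) {p : ℝ} (hp : 0 < p) :
    (a + b) ^ p ≤ 2 ^ p * (a ^ p + b ^ p) := by
  have h1 : a + b ≤ 2 * max a b := by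
    rw [two_mul]
    exact add_le_add (le_max_left _ _) (le_max_right _ _)
  refine (ENNReal.rpow_le_rpow h1 hp.le).trans ?_
  rw [ENNReal.mul_rpow_of_nonneg _ _ hp.le]
  refine mul_le_mul_right ?_ _
  rcases max_cases a b with h | h
  · rw [h.1]
    exact le_self_add
  · rw [h.1]
    exact le_add_self

theorem anti_rpow {p : ℝ} (hp : p < 0) {x y : ℝ≥0∞} (h : x ≤ y) : y ^ p ≤ x ^ p := by
  obtain ⟨q, rfl⟩ : ∃ q, p = -q := ⟨-p, (neg_neg p).symm⟩
  rw [ENNReal.rpow_neg, ENNReal.rpow_neg, ENNReal.inv_le_inv]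
  exact ENNReal.rpow_le_rpow h (by linarith)

theorem t_WHL : S_JEN → S_POS → S_NEG → S_WHL := by
  intro _ hpos hneg μ r c ε₀ Ω _ P X hμ hμ2 hr hε hε2 hF p hp
  have hF1 : Fam μ r ε₀ Ω P X := ⟨hF.prob, fun ε he => lnf1 (hF.lnf ε he)⟩
  have hF2 : Fam μ r ε₀ Ω P (fun ε u => X ε (u + 1 / 2)) :=
    ⟨hF.prob, fun ε he => lnf2 (hF.lnf ε he)⟩
  rcases lt_trichotomy p 0 with h | h | h
  · obtain ⟨C, hC, hb⟩ := hneg μ r ε₀ Ω P X hμ hμ2 hr hε hε2 hF1 (-p) (by linarith)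
    refine ⟨C, hC, fun ε he => ?_⟩
    refine le_trans ?_ (hb ε he)
    rw [neg_neg]
    unfold mom
    refine lintegral_mono fun ω => ?_
    exact anti_rpow h (by rw [mas_split]; exact le_self_add)
  · refine ⟨1, ENNReal.one_ne_top, fun ε he => ?_⟩
    have hprob := hF.prob ε he
    unfold mom
    rw [h]
    simp
  · obtain ⟨C1, hC1, hb1⟩ := hpos μ r ε₀ Ω P X hμ hμ2 hr hε hε2 hF1 p h hp
    obtain ⟨C2, hC2, hb2⟩ := hpos μ r ε₀ Ω P _ hμ hμ2 hr hε hε2 hF2 p h hp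
    refine ⟨2 ^ p * (C1 + C2), ENNReal.mul_ne_top (ENNReal.rpow_ne_top_of_nonneg h.le (by simp))
      (ENNReal.add_ne_top.2 ⟨hC1, hC2⟩), fun ε he => ?_⟩
    have m1 : Measurable (mas Hf (X ε)) := mas_meas _ (hF1.lnf ε he).meas
    unfold mom
    calc ∫⁻ ω, mas (Ico 0 1) (X ε) ω ^ p ∂(P ε)
        ≤ ∫⁻ ω, 2 ^ p * (mas Hf (X ε) ω ^ p + mas Hf (fun u => X ε (u + 1 / 2)) ω ^ p) ∂(P ε) := by
          refine lintegral_mono fun ω => ?_
          rw [mas_split]
          exact add_rpow_le _ _ h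
      _ = 2 ^ p * (mom (P ε) Hf (X ε) p + mom (P ε) Hf (fun u => X ε (u + 1 / 2)) p) := by
          unfold mom
          rw [lintegral_const_mul' _ _ (ENNReal.rpow_ne_top_of_nonneg h.le (by simp)),
            lintegral_add_left (m1.pow_const p)]
      _ ≤ 2 ^ p * (C1 + C2) := mul_le_mul_right (add_le_add (hb1 ε he) (hb2 ε he)) _

end Pool.Agent.H404.CG.WHL
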